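import Mathlib
import Pool.Agent.Helper1_PGH.Defs

/-!
# Fibre steps

Steps of towers of function fields, given by rational functions `x l` (`l < n`) and finite sets
`A l` of values, with a condition on the germs of curves which take one of these values with
multiplicity one.
-/

set_option autoImplicit false

universe u

open MvPolynomial PGH

namespace Pool.Agent.FibreTowers

/-- **The condition on germs of curves.**  `M` is a field with `κ : k → M`, the `x l` are elements
of `M`, the `A l` finite subsets of `k`.  A germ of a curve is given by a function field `E` of one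
variable over `k`, a place `P` of `E` and a homomorphism `φ` over `k` from a subring `R` of `M`
which contains `κ k`, `T` and the `x l` to `E`.  The condition is that, whenever all nonzero elements
of `T` which belong to `F` have nonzero finite values at `P` and the `x l` have finite values at `P`,
and `x l` takes at `P` a value in `A l` with multiplicity one, some `x m`, `m ≠ l`, takes at `P` a
value in `A m`. -/
def Germs {k M : Type u} [Field k] [Field M] (κ : k →+* M) (F T : Set M) {n : ℕ}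
    (x : Fin n → M) (A : Fin n → Finset k) : Prop :=
  ∀ {E : Type u} [Field E] [Algebra k E] [FF k E] (R : Subring M) (hκ : ∀ c, κ c ∈ R)
    (hx : ∀ l, x l ∈ R) (hT : ∀ t ∈ T, t ∈ R) (φ : R →+* E),
    (∀ c, φ ⟨κ c, hκ c⟩ = algebraMap k E c) → ∀ P : Place k E,
    (∀ t (ht : t ∈ T), t ∈ F → t ≠ 0 → P.Ge 0 (φ ⟨t, hT t ht⟩) ∧ ¬ P.Ge 1 (φ ⟨t, hT t ht⟩)) →
    (∀ l, P.Ge 0 (φ ⟨x l, hx l⟩)) →
    ∀ l, ∀ a ∈ A l, P.ord (φ ⟨x l, hx l⟩ - algebraMap k E a) = 1 →
      ∃ m, m ≠ l ∧ ∃ b ∈ A m, P.Ge 1 (φ ⟨x m, hx m⟩ - algebraMap k E b)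

/-- The sets `A l` are large: either `n = 2` and both have at least `N₀ 2` elements, or
`A l = {a l j : j < N}` where `N ≥ N₀ n` and `Φ n N (a) ≠ 0`. -/
def Large (N₀ : ℕ → ℕ) (Φ : ∀ n N : ℕ, MvPolynomial (Fin n × Fin N) ℤ) {k : Type*} [Field k]
    {n : ℕ} (A : Fin n → Finset k) : Prop :=
  (n = 2 ∧ ∀ l, N₀ n ≤ (A l).card) ∨
    ∃ (N : ℕ) (a : Fin n → Fin N → k), N₀ n ≤ N ∧ (∀ l, (A l : Set k) = Set.range (a l)) ∧
      aeval (fun p : Fin n × Fin N => a p.1 p.2) (Φ n N) ≠ 0

/-- A fibre step from the subfield `F` to the subfield `F'` of `M`. -/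
structure Step (N₀ : ℕ → ℕ) (Φ : ∀ n N : ℕ, MvPolynomial (Fin n × Fin N) ℤ) {k M : Type u}
    [Field k] [Field M] (κ : k →+* M) (F F' : Subfield M) : Prop where
  le : F ≤ F'
  step : ∃ (n : ℕ) (x : Fin n → M) (A : Fin n → Finset k) (T : Set M), Large N₀ Φ A ∧
    T.Finite ∧ Germs κ (F : Set M) T x A ∧
    (∀ p : MvPolynomial (Fin n) k, eval₂ κ x p = 0 → p = 0) ∧
    ∀ w ∈ F', IsAlgebraic (Subfield.closure ((F : Set M) ∪ Set.range x)) w

/-- **Radicals.**  Relations `∏ (x l - a) ^ e l a r = b r * z r ^ m r` with `b r ≠ 0` in `F` such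
that for each `l` and `a` in `A l` some exponent `e l a r` is not divisible by `m r`. -/
def Radicals {k M : Type*} [Field k] [Field M] (κ : k →+* M) (F : Set M) {n : ℕ}
    (x : Fin n → M) (A : Fin n → Finset k) : Prop :=
  ∃ (R : ℕ) (e : Fin n → k → Fin R → ℤ) (m : Fin R → ℕ) (b z : Fin R → M),
    (∀ r, b r ∈ F ∧ b r ≠ 0 ∧ ∏ l, ∏ a ∈ A l, (x l - κ a) ^ e l a r = b r * z r ^ m r) ∧
    ∀ l, ∀ a ∈ A l, ∃ r, ¬ (m r : ℤ) ∣ e l a r

/-- **Quotients of products of curves.**  A finite group `G` acts on a field `M₀` over `k`; the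
`B l` are `G`-stable function fields of curves in `M₀`; for each `l` only the identity acts
trivially on all `B m`, `m ≠ l`; the `y l` in `B l` are fixed by `G`, for each `c` in `k` either all
zeros of `y l - c` in the curve are simple (then `c` is not in `A l`) or none (then `c` is in `A l`,
if there are zeros of multiplicity at least two); the field of invariants is embedded in `M` over
`k` and `x l` is the image of `y l`. -/
def Quotients {k M : Type u} [Field k] [Field M] (κ : k →+* M) {n : ℕ}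
    (x : Fin n → M) (A : Fin n → Finset k) : Prop :=
  ∃ (M₀ G : Type u) (_ : Field M₀) (_ : Algebra k M₀) (_ : Group G) (_ : Finite G)
    (_ : MulSemiringAction G M₀) (_ : SMulCommClass G k M₀) (B : Fin n → IntermediateField k M₀)
    (y : ∀ l, B l) (j : FixedPoints.subfield G M₀ →+* M),
    (∀ l, FF k (B l)) ∧ (∀ l, ∀ g : G, ∀ z ∈ B l, g • z ∈ B l) ∧
    (∀ l, ∀ g : G, (∀ m, m ≠ l → ∀ z ∈ B m, g • z = z) → g = 1) ∧
    (∀ l, ∀ g : G, g • (y l : M₀) = y l) ∧
    (∀ l, ∀ c : k, c ∈ A l ↔ ∃ v : Place k (B l), 2 ≤ v.ord (y l - algebraMap k (B l) c)) ∧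
    (∀ l, ∀ c ∈ A l, ∀ v : Place k (B l), v.ord (y l - algebraMap k (B l) c) ≠ 1) ∧
    (∀ (c : k) (h : algebraMap k M₀ c ∈ FixedPoints.subfield G M₀), j ⟨algebraMap k M₀ c, h⟩ = κ c) ∧
    ∀ (l : Fin n) (h : (y l : M₀) ∈ FixedPoints.subfield G M₀), j ⟨y l, h⟩ = x l

end Pool.Agent.FibreTowers
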