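import Mathlib
import Pool.Agent.Helper3_PQX.Defs
import Pool.Agent.Helper3_PPZ.Stmts
import Pool.Agent.Helper50_PN.Stmts

/-!
# Squad PQX: statements
-/

set_option autoImplicit false

universe u

open MvPolynomial PGH PGL

namespace Pool.Agent.PQX

open FibreTowers

/-- the condition on germs, for algebras -/
def GermsA {k M : Type u} [Field k] [Field M] [Algebra k M] (F T : Set M) {n : ℕ}
    (x : Fin n → M) (A : Fin n → Finset k) : Prop :=
  ∀ {E : Type u} [Field E] [Algebra k E] [FF k E] (S : Subalgebra k M), T ⊆ (S : Set M) →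
    (∀ l, x l ∈ S) → ∀ (φ : S →ₐ[k] E) (P : Place k E),
    (∀ t ∈ T, t ∈ F → t ≠ 0 → P.Ge 0 (ev φ t) ∧ ¬ P.Ge 1 (ev φ t)) →
    (∀ l, P.Ge 0 (ev φ (x l))) →
    ∀ l, ∀ a ∈ A l, P.ord (ev φ (x l) - algebraMap k E a) = 1 →
      ∃ m, m ≠ l ∧ ∃ b ∈ A m, P.Ge 1 (ev φ (x m) - algebraMap k E b)

/-- EQV: the two forms of the condition -/
def EqvStmt : Prop :=
  ∀ {k M : Type u} [Field k] [Field M] [Algebra k M] (F T : Set M) {n : ℕ}
    (x : Fin n → M) (A : Fin n → Finset k), Germs (algebraMap k M) F T x A ↔ GermsA F T x A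

/-- HGB: bounded heights from the pattern (see `PPZ.H6.hga`) -/
def HgbStmt : Prop :=
  ∀ {k E : Type u} [Field k] [Field E] [Algebra k E] [IsAlgClosed k] [CharZero k] [CharZero E]
    [FF k E] (D : Derivation ℤ E E), (∀ w, D w = 0 ↔ ∃ c : k, algebraMap k E c = w) →
    ∀ (cp : Place k E → ℕ) (sc : Finset (Place k E)), PPX.Bp D cp sc →
    ∀ {N₁ N₂ R : ℕ} (x z : E) (a : Fin N₁ → k) (b : Fin N₂ → k) (c : Fin R → E)
      (F : MvPolynomial (Fin 2) k),
    20 ≤ N₁ → 20 ≤ N₂ → Function.Injective a → Function.Injective b →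
    (∀ i, x ≠ algebraMap k E (a i)) → (∀ j, z ≠ algebraMap k E (b j)) →
    (∀ P : Place k E, (∀ r, P.ord (c r) = 0) →
      (∀ i, P.ord (x - algebraMap k E (a i)) = 1 → P.Ge 0 z →
        ∃ j, P.Ge 1 (z - algebraMap k E (b j))) ∧
      (∀ j, P.ord (z - algebraMap k E (b j)) = 1 → P.Ge 0 x →
        ∃ i, P.Ge 1 (x - algebraMap k E (a i)))) →
    PPZ.ExcA a b F → aeval ![x, z] F ≠ 0 →
    ht k x + ht k z ≤ 10 * (∑ P ∈ sc, cp P) + 10 * ∑ r, 2 * ht k (c r)

/-- GPZ: good elements, two coordinates (see `PPZ.H21.line_good2`) -/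
def GpzStmt : Prop :=
  ∃ N₀ : ℕ, ∀ {k M : Type u} [Field k] [Field M] [Algebra k M] [IsAlgClosed k] [CharZero k]
    (F₀ F T : Set M) (x : Fin 2 → M) (A : Fin 2 → Finset k), (∀ l, N₀ ≤ (A l).card) →
    AlgebraicIndependent k x → T.Finite → (∀ w ∈ F, GoodEl2 k F₀ w) → GermsA F T x A →
    ∀ l, GoodEl2 k F₀ (x l)

/-- GPN: good elements, general position (see `PN.goo`, `PN.curve`) -/
def GpnStmt : Prop :=
  ∃ (N₀ : ℕ → ℕ) (Φ : ∀ n N : ℕ, MvPolynomial (Fin n × Fin N) ℤ),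
    (∀ n N, N₀ n ≤ N → Φ n N ≠ 0) ∧
    ∀ {k M : Type u} [Field k] [Field M] [Algebra k M] [IsAlgClosed k] [CharZero k]
      (F₀ F T : Set M) (n N : ℕ) (x : Fin n → M) (A : Fin n → Finset k)
      (a : Fin n → Fin N → k), N₀ n ≤ N → AlgebraicIndependent k x →
      (∀ l, (A l : Set k) = Set.range (a l)) →
      aeval (fun p : Fin n × Fin N => a p.1 p.2) (Φ n N) ≠ 0 → T.Finite →
      (∀ w ∈ F, GoodEl2 k F₀ w) → GermsA F T x A → ∀ l, GoodEl2 k F₀ (x l)

/-- RAD: radicals satisfy the condition on germs -/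
def RadStmt : Prop :=
  ∀ {k M : Type u} [Field k] [IsAlgClosed k] [CharZero k] [Field M] [Algebra k M] (F : Set M)
    {n : ℕ} (x : Fin n → M) (A : Fin n → Finset k), AlgebraicIndependent k x →
    Radicals (algebraMap k M) F x A → ∃ T : Set M, T.Finite ∧ GermsA F T x A

/-- QFX: a place fixed by a nontrivial automorphism is ramified -/
def QfxStmt : Prop :=
  ∀ {k B : Type u} [Field k] [Field B] [Algebra k B] (v : Place k B) (σ : B ≃ₐ[k] B),
    (∀ y, v.ord (σ y) = v.ord y) → (∃ y, σ y ≠ y) → ∀ (w : B) (c : k), σ w = w →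
    w ≠ algebraMap k B c → v.Ge 1 (w - algebraMap k B c) → 2 ≤ v.ord (w - algebraMap k B c)

/-- QPL: the pattern for a lifting package; here `r l` in `R` is the element of the ring of
invariants which maps to `y l` -/
def QplStmt : Prop :=
  ∀ {k M Γ R S E E' : Type u} [Field k] [IsAlgClosed k] [CharZero k] [Field M] [Algebra k M]
    [Group Γ] [Finite Γ] [MulSemiringAction Γ M] [SMulCommClass Γ k M]
    [CommRing R] [CommRing S] [Algebra k R] [Algebra k S] [Algebra R S] [IsScalarTower k R S]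
    [MulSemiringAction Γ S] [SMulCommClass Γ R S] [Algebra.IsInvariant R S Γ]
    [Algebra.FiniteType R S] [Algebra S M] [IsScalarTower k S M]
    {n : ℕ} (B : Fin n → IntermediateField k M) [∀ l, FF k (B l)]
    (hB : ∀ l, ∀ γ : Γ, ∀ z ∈ B l, γ • z ∈ B l)
    [Field E] [Algebra k E] [FF k E] [Field E'] [Algebra E E'] [Algebra k E']
    [IsScalarTower k E E'] [FiniteDimensional E E'] [IsGalois E E']
    (φ : R →ₐ[k] E) (_ : LiftPack (S := S) B hB φ E') (y : ∀ l, B l) (r : Fin n → R)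
    (A : Fin n → Finset k),
    (∀ l, ∀ γ : Γ, (∀ m, m ≠ l → ∀ z ∈ B m, γ • z = z) → γ = 1) →
    (∀ l, ∀ γ : Γ, γ • (y l : M) = y l) →
    (∀ l, Transcendental k (y l)) →
    (∀ l, ∀ c : k, (∃ v : Place k (B l), 2 ≤ v.ord (y l - algebraMap k (B l) c)) → c ∈ A l) →
    (∀ l, ∀ c ∈ A l, ∀ v : Place k (B l), v.ord (y l - algebraMap k (B l) c) ≠ 1) →
    (∀ l, algebraMap S M (algebraMap R S (r l)) = y l) →
    ∀ P : Place k E, (∀ l, P.Ge 0 (φ (r l))) → ∀ l, ∀ a ∈ A l,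
      P.ord (φ (r l) - algebraMap k E a) = 1 →
      ∃ m, m ≠ l ∧ ∃ b ∈ A m, P.Ge 1 (φ (r m) - algebraMap k E b)

/-- QUO: quotients of products of curves satisfy the condition on germs -/
def QuoStmt : Prop :=
  ∀ {k M : Type u} [Field k] [IsAlgClosed k] [CharZero k] [Field M] [Algebra k M]
    {n : ℕ} (x : Fin n → M) (A : Fin n → Finset k), AlgebraicIndependent k x →
    Quotients (algebraMap k M) x A → ∃ T : Set M, T.Finite ∧ ∀ F : Set M, GermsA F T x A

end Pool.Agent.PQX
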