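import Pool.Agent.Helper3_PQX.Main
import Pool.Agent.Helper3_PPZ.Ass
import Pool.Agent.Helper67_PQX.Gpn
import Pool.Agent.Helper13_PQX.Qfx
import Pool.Agent.Helper47_PQX.Qpl
import Pool.Agent.Helper17_PQX.Quo
import Pool.Agent.Helper76_PQX.Rad
import Pool.Agent.Helper50_PN.Asm
import Pool.Agent.Helper11_PGL.Asm
import Pool.Agent.Helper40_PGL.GAlg

/-!
# Squad PQX: assembly
-/

universe u

open PGH PGL Pool.Agent.PN

namespace Pool.Agent.PQX.H3

theorem jet0 : JetStmt.{u} :=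
  H69.jet exi (H71.clo (H21.cld H39.dgr) H21.cln H11.clm) (H69.spa H77.det) H69.spn
    H65.ver H77.coe

theorem cnt0 : CntStmt.{u} := H40.cnt H86.ram

theorem hgt0 : HgtStmt.{u} := H94.hgt H64.evp (H64.evn H81.hsd) cnt0

theorem gpn0 : GpnStmt.{u} := H67.gpn jet0 hgt0 cnt0 H13.dRat

theorem quo0 : QuoStmt.{u} := H17.quo (H47.qpl H13.qfx)

theorem fin0 : Fin2BStmt.{u} := fin2B asmB

end Pool.Agent.PQX.H3
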