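import Mathlib
import Pool.Agent.Helper3_PQX.Stmts

/-!
# Squad PQX: module EQV
-/

set_option autoImplicit false

universe u

open MvPolynomial PGH PGL

namespace Pool.Agent.PQX.H3

open FibreTowers

theorem eqv : EqvStmt.{u} := by
  intro k M _ _ _ F T n x A
  constructor
  · intro h E _ _ _ S hTS hxS φ P hT hx l a ha h1
    have hT' : ∀ t ∈ T, t ∈ S.toSubring := fun t ht => hTS ht
    have hx' : ∀ l, x l ∈ S.toSubring := hxS
    have hκ : ∀ c, algebraMap k M c ∈ S.toSubring := fun c => S.algebraMap_mem c
    obtain ⟨m, hm, b, hb, hb1⟩ := h S.toSubring hκ hx' hT' (φ : S →+* E)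
      (fun c => φ.commutes c) P (by
        intro t ht htF ht0
        have h2 := hT t ht htF ht0
        rw [ev_mem φ (hTS ht)] at h2
        exact h2) (by
        intro l
        have h2 := hx l
        rw [ev_mem φ (hxS l)] at h2
        exact h2) l a ha (by
        have h2 := h1
        rw [ev_mem φ (hxS l)] at h2
        exact h2)
    refine ⟨m, hm, b, hb, ?_⟩
    rw [ev_mem φ (hxS m)]
    exact hb1
  · intro h E _ _ _ R hκ hx hT φ hφ P hTP hxP l a ha h1
    let S : Subalgebra k M := { R with algebraMap_mem' := hκ }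
    let ψ : S →ₐ[k] E := { φ with commutes' := hφ }
    have hev : ∀ (t : M) (ht : t ∈ R), ev ψ t = φ ⟨t, ht⟩ := fun t ht => ev_mem ψ (show t ∈ S from ht)
    obtain ⟨m, hm, b, hb, hb1⟩ := h S (fun t ht => hT t ht) hx ψ P (by
        intro t ht htF ht0
        rw [hev t (hT t ht)]
        exact hTP t ht htF ht0) (by
        intro l
        rw [hev _ (hx l)]
        exact hxP l) l a ha (by
        rw [hev _ (hx l)]
        exact h1)
    refine ⟨m, hm, b, hb, ?_⟩
    rw [hev _ (hx m)] at hb1
    exact hb1

end Pool.Agent.PQX.H3
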