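import Mathlib
import Pool.Agent.Helper3_PQX.Eqv
import Pool.Agent.Helper50_PN.Main

/-!
# Squad PQX: the final theorem
-/

set_option autoImplicit false

universe u

open CategoryTheory AlgebraicGeometry MvPolynomial PGH PGL

namespace Pool.Agent.FibreTowers

/-- A step given by radicals: `F'` is algebraic over the field generated by `F` and the `x l`. -/
structure RadicalStep (N₀ : ℕ → ℕ) (Φ : ∀ n N : ℕ, MvPolynomial (Fin n × Fin N) ℤ) {k M : Type u}
    [Field k] [Field M] (κ : k →+* M) (F F' : Subfield M) : Prop where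
  le : F ≤ F'
  step : ∃ (n : ℕ) (x : Fin n → M) (A : Fin n → Finset k), Large N₀ Φ A ∧
    Radicals κ (F : Set M) x A ∧ (∀ p : MvPolynomial (Fin n) k, eval₂ κ x p = 0 → p = 0) ∧
    ∀ w ∈ F', IsAlgebraic (Subfield.closure ((F : Set M) ∪ Set.range x)) w

/-- A step given by a quotient of a product of curves by a finite group. -/
structure QuotientStep (N₀ : ℕ → ℕ) (Φ : ∀ n N : ℕ, MvPolynomial (Fin n × Fin N) ℤ) {k M : Type u}
    [Field k] [Field M] (κ : k →+* M) (F F' : Subfield M) : Prop where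
  le : F ≤ F'
  step : ∃ (n : ℕ) (x : Fin n → M) (A : Fin n → Finset k), Large N₀ Φ A ∧
    Quotients κ x A ∧ (∀ p : MvPolynomial (Fin n) k, eval₂ κ x p = 0 → p = 0) ∧
    ∀ w ∈ F', IsAlgebraic (Subfield.closure ((F : Set M) ∪ Set.range x)) w

end Pool.Agent.FibreTowers

namespace Pool.Agent.PQX.H3

open FibreTowers

theorem indep {k M : Type u} [Field k] [Field M] [Algebra k M] {n : ℕ} (x : Fin n → M)
    (h : ∀ p : MvPolynomial (Fin n) k, eval₂ (algebraMap k M) x p = 0 → p = 0) :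
    AlgebraicIndependent k x := by
  rw [algebraicIndependent_iff]
  exact h

/-- fibre steps preserve good elements of the second kind -/
theorem step_good (h0 : GpnStmt.{u}) (h1 : GpzStmt.{u}) (h3 : GAlgStmt.{u}) :
    ∃ (N₀ : ℕ → ℕ) (Φ : ∀ n N : ℕ, MvPolynomial (Fin n × Fin N) ℤ),
      (∀ n N, N₀ n ≤ N → Φ n N ≠ 0) ∧
      ∀ {k M : Type u} [Field k] [Field M] [Algebra k M] [IsAlgClosed k] [CharZero k]
        (F₀ : Set M) (F F' : Subfield M), Step N₀ Φ (algebraMap k M) F F' →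
        (∀ w ∈ F, GoodEl2 k F₀ w) → ∀ w ∈ F', GoodEl2 k F₀ w := by
  obtain ⟨N₁, Φ, hΦ, hP⟩ := h0
  obtain ⟨N₂, hX⟩ := h1
  refine ⟨fun n => max (N₁ n) N₂, Φ, fun n N h => hΦ n N ((le_max_left _ _).trans h), ?_⟩
  intro k M _ _ _ _ _ F₀ F F' hs hF w hw
  obtain ⟨n, x, A, T, hL, hT, hG, hi, halg⟩ := hs.step
  have hG' : GermsA (F : Set M) T x A := (eqv (F : Set M) T x A).1 @hG
  have hx : ∀ l, GoodEl2 k F₀ (x l) := by
    rcases hL with ⟨rfl, hc⟩ | ⟨N, a, hN, hA, ha⟩
    · exact hX F₀ (F : Set M) T x A (fun l => (le_max_right _ _).trans (hc l)) (indep x hi) hT hF @hG'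
    · exact hP F₀ (F : Set M) T n N x A a ((le_max_left _ _).trans hN) (indep x hi) hA ha hT hF @hG'
  refine (h3 k M F₀).2.2 ((F : Set M) ∪ Set.range x) ?_ w (halg w hw)
  rintro y (hy | ⟨l, rfl⟩)
  · exact hF y hy
  · exact hx l

/-- towers of steps which preserve good elements -/
theorem main_gen (St : ∀ {k M : Type u} [Field k] [Field M], (k →+* M) → Subfield M →
      Subfield M → Prop)
    (h1 : ∀ (k M : Type u) [Field k] [Field M] [Algebra k M] [IsAlgClosed k] [CharZero k]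
      (F₀ : Set M) (F F' : Subfield M), St (algebraMap k M) F F' →
      (∀ a ∈ F, GoodEl2 k F₀ a) → ∀ a ∈ F', GoodEl2 k F₀ a)
    (h2 : Fin2BStmt.{u}) (h3 : GAlgStmt.{u}) {k : Type u} [Field k] [IsAlgClosed k] [CharZero k]
    {X : Scheme.{u}} (f : X ⟶ Spec (.of k)) [IsIntegral X] [IsSeparated f]
    [LocallyOfFiniteType f] [QuasiCompact f] :
    (Relation.ReflTransGen (St (constants k f)) (constants k f).fieldRange ⊤ → IsPGH k f) ∧
    (∀ {Y : Scheme.{u}} (q : Y ⟶ Spec (.of k)) [IsIntegral Y] (g : X ⟶ Y) [IsDominant g],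
      g ≫ q = f → IsPGH k q →
      Relation.ReflTransGen (St (constants k f)) (pullbackField g).fieldRange ⊤ → IsPGH k f) := by
  let _ : Algebra k X.functionField := (constants k f).toAlgebra
  refine ⟨fun h => ?_, fun {Y} q _ g _ hgq hY h => ?_⟩
  · have hgood : ∀ a : X.functionField, GoodEl2 k (∅ : Set X.functionField) a := fun a =>
      PN.good2_of_tower (k := k) (fun F₀ F F' hs => h1 k X.functionField F₀ F F' hs) h
        (by rintro _ ⟨c, rfl⟩; exact (h3 k X.functionField _).2.1 c) a trivial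
    refine isPGH_of_fields k f X.functionField (RingEquiv.refl _) (fun c => rfl) ?_
    intro A hA
    obtain ⟨T, hT, hh⟩ := h2 k X.functionField _ hgood A hA
    refine ⟨T, hT, fun d hd hd0 hTR E _ _ _ P x => ?_⟩
    refine (hh d hd hd0 hTR E P x (fun _ => 0)).subset ?_
    intro φ hφ
    exact ⟨hφ, fun r hr => absurd hr.2 (Set.notMem_empty _)⟩
  · have hgood : ∀ a : X.functionField,
        GoodEl2 k (Set.range (fun b => RingEquiv.refl _ (pullbackField g b))) a := fun a =>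
      PN.good2_of_tower (k := k) (fun F₀ F F' hs => h1 k X.functionField F₀ F F' hs) h
        (by rintro _ ⟨b, rfl⟩; exact (h3 k X.functionField _).1 _ ⟨b, rfl⟩) a trivial
    exact isPGH_of_fields_rel k f q g hgq hY X.functionField (RingEquiv.refl _) (fun c => rfl)
      (h2 k X.functionField _ hgood)

/-- the final theorem, from the statements of the squad -/
theorem main_of (h0 : GpnStmt.{u}) (h1 : GpzStmt.{u}) (hr : RadStmt.{u}) (hq : QuoStmt.{u})
    (h2 : Fin2BStmt.{u}) (h3 : GAlgStmt.{u}) :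
    ∃ (N₀ : ℕ → ℕ) (Φ : ∀ n N : ℕ, MvPolynomial (Fin n × Fin N) ℤ),
      (∀ n N, N₀ n ≤ N → Φ n N ≠ 0) ∧
      ∀ {k : Type u} [Field k] [IsAlgClosed k] [CharZero k],
      (∀ {X : Scheme.{u}} (f : X ⟶ Spec (.of k)) [IsIntegral X] [IsSeparated f]
        [LocallyOfFiniteType f] [QuasiCompact f],
      (Relation.ReflTransGen (Step N₀ Φ (constants k f)) (constants k f).fieldRange ⊤ →
        IsPGH k f) ∧
      ∀ {Y : Scheme.{u}} (q : Y ⟶ Spec (.of k)) [IsIntegral Y] (g : X ⟶ Y) [IsDominant g],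
        g ≫ q = f → IsPGH k q →
        Relation.ReflTransGen (Step N₀ Φ (constants k f)) (pullbackField g).fieldRange ⊤ →
        IsPGH k f) ∧
      ∀ {M : Type u} [Field M] (κ : k →+* M) (F F' : Subfield M),
        RadicalStep N₀ Φ κ F F' ∨ QuotientStep N₀ Φ κ F F' → Step N₀ Φ κ F F' := by
  obtain ⟨N₀, Φ, hΦ, hgood⟩ := step_good h0 h1 h3
  refine ⟨N₀, Φ, hΦ, ?_⟩
  intro k _ _ _
  refine ⟨?_, ?_⟩
  · intro X f _ _ _ _
    exact main_gen (fun {k M} [Field k] [Field M] κ F F' => Step N₀ Φ κ F F')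
      (fun k M _ _ _ _ _ F₀ F F' h hF => hgood F₀ F F' h hF) h2 h3 f
  · intro M _ κ F F' h
    let _ : Algebra k M := κ.toAlgebra
    rcases h with h | h
    · obtain ⟨n, x, A, hL, hR, hi, halg⟩ := h.step
      obtain ⟨T, hT, hG⟩ := hr (F : Set M) x A (indep x hi) hR
      exact ⟨h.le, n, x, A, T, hL, hT, (eqv (F : Set M) T x A).2 @hG, hi, halg⟩
    · obtain ⟨n, x, A, hL, hR, hi, halg⟩ := h.step
      obtain ⟨T, hT, hG⟩ := hq x A (indep x hi) hR
      have hG' : GermsA (F : Set M) T x A := @hG (F : Set M)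
      exact ⟨h.le, n, x, A, T, hL, hT, (eqv (F : Set M) T x A).2 @hG', hi, halg⟩

end Pool.Agent.PQX.H3
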