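import Mathlib
import Pool.Agent.Helper3_PQX.Fin

/-!
# Squad PQX: quotients of products of curves by groups acting faithfully on each curve
-/

set_option autoImplicit false

universe u

open CategoryTheory AlgebraicGeometry MvPolynomial PGH PGL

namespace Pool.Agent.FibreTowers

/-- **Product-quotient varieties.**  As in `Quotients`, but `G` acts faithfully on each of the
curves. -/
def AbsQuotients {k M : Type u} [Field k] [Field M] (κ : k →+* M) {n : ℕ}
    (x : Fin n → M) (A : Fin n → Finset k) : Prop :=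
  ∃ (M₀ G : Type u) (_ : Field M₀) (_ : Algebra k M₀) (_ : Group G) (_ : Finite G)
    (_ : MulSemiringAction G M₀) (_ : SMulCommClass G k M₀) (B : Fin n → IntermediateField k M₀)
    (y : ∀ l, B l) (j : FixedPoints.subfield G M₀ →+* M),
    (∀ l, FF k (B l)) ∧ (∀ l, ∀ g : G, ∀ z ∈ B l, g • z ∈ B l) ∧
    (∀ l, ∀ g : G, (∀ z ∈ B l, g • z = z) → g = 1) ∧
    (∀ l, ∀ g : G, g • (y l : M₀) = y l) ∧
    (∀ l, ∀ c : k, c ∈ A l ↔ ∃ v : Place k (B l), 2 ≤ v.ord (y l - algebraMap k (B l) c)) ∧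
    (∀ l, ∀ c ∈ A l, ∀ v : Place k (B l), v.ord (y l - algebraMap k (B l) c) ≠ 1) ∧
    (∀ (c : k) (h : algebraMap k M₀ c ∈ FixedPoints.subfield G M₀), j ⟨algebraMap k M₀ c, h⟩ = κ c) ∧
    ∀ (l : Fin n) (h : (y l : M₀) ∈ FixedPoints.subfield G M₀), j ⟨y l, h⟩ = x l

/-- The field `M` is algebraic over the field of a product-quotient variety of dimension at least
two, with at least `N` branch points on each of the curves `C l / G`. -/
def CurveQuotient (N : ℕ) {k M : Type u} [Field k] [Field M] (κ : k →+* M) : Prop :=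
  ∃ (n : ℕ) (x : Fin n → M) (A : Fin n → Finset k), 2 ≤ n ∧ (∀ l, N ≤ (A l).card) ∧
    AbsQuotients κ x A ∧ (∀ p : MvPolynomial (Fin n) k, eval₂ κ x p = 0 → p = 0) ∧
    ∀ w : M, IsAlgebraic (Subfield.closure (Set.range κ ∪ Set.range x)) w

end Pool.Agent.FibreTowers

namespace Pool.Agent.PQX.H3

open FibreTowers

theorem abs_pair {k M : Type u} [Field k] [Field M] (κ : k →+* M) {n : ℕ}
    (x : Fin n → M) (A : Fin n → Finset k) (h : AbsQuotients κ x A) (e : Fin 2 → Fin n) :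
    Quotients κ (x ∘ e) (A ∘ e) := by
  obtain ⟨M₀, G, i1, i2, i3, i4, i5, i6, B, y, j, h1, h2, h3, h4, h5, h6, h7, h8⟩ := h
  refine ⟨M₀, G, i1, i2, i3, i4, i5, i6, fun i => B (e i), fun i => y (e i), j, fun i => h1 (e i),
    fun i => h2 (e i), ?_, fun i => h4 (e i), fun i => h5 (e i), fun i => h6 (e i), h7,
    fun i => h8 (e i)⟩
  intro l g hg
  obtain ⟨m, hm⟩ : ∃ m : Fin 2, m ≠ l := by
    fin_cases l
    · exact ⟨1, by decide⟩
    · exact ⟨0, by decide⟩
  exact h3 (e m) g (hg m hm)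

theorem abs_of (h1 : GpzStmt.{u}) (hq : QuoStmt.{u}) (h2 : Fin2BStmt.{u}) (h3 : GAlgStmt.{u}) :
    ∃ N : ℕ, ∀ {k : Type u} [Field k] [IsAlgClosed k] [CharZero k] {X : Scheme.{u}}
      (f : X ⟶ Spec (.of k)) [IsIntegral X] [IsSeparated f] [LocallyOfFiniteType f]
      [QuasiCompact f], CurveQuotient N (constants k f) → IsPGH k f := by
  obtain ⟨N, hN⟩ := h1
  refine ⟨N, ?_⟩
  intro k _ _ _ X f _ _ _ _ h
  obtain ⟨n, x, A, hn, hA, hQ, hi, halg⟩ := h
  let _ : Algebra k X.functionField := (constants k f).toAlgebra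
  have hind : AlgebraicIndependent k x := indep x hi
  have hx : ∀ l, GoodEl2 k (∅ : Set X.functionField) (x l) := by
    intro l
    obtain ⟨m, hm⟩ : ∃ m : Fin n, m ≠ l := by
      have : Nontrivial (Fin n) := Fin.nontrivial_iff_two_le.2 hn
      exact exists_ne l
    have he : Function.Injective (![l, m] : Fin 2 → Fin n) := by
      intro a b hab
      fin_cases a <;> fin_cases b
      · rfl
      · exact absurd hab.symm hm
      · exact absurd hab hm
      · rfl
    obtain ⟨T, hT, hG⟩ := hq (x ∘ ![l, m]) (A ∘ ![l, m]) (hind.comp _ he)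
      (abs_pair _ x A hQ ![l, m])
    have hG' : GermsA (∅ : Set X.functionField) T (x ∘ ![l, m]) (A ∘ ![l, m]) := @hG ∅
    exact hN (∅ : Set X.functionField) ∅ T (x ∘ ![l, m]) (A ∘ ![l, m]) (fun i => hA _)
      (hind.comp _ he) hT (fun w hw => absurd hw (Set.notMem_empty _)) @hG' 0
  have hgood : ∀ w : X.functionField, GoodEl2 k (∅ : Set X.functionField) w := by
    intro w
    refine (h3 k X.functionField ∅).2.2 _ ?_ w (halg w)
    rintro y (⟨c, rfl⟩ | ⟨l, rfl⟩)
    · exact (h3 k X.functionField ∅).2.1 c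
    · exact hx l
  refine isPGH_of_fields k f X.functionField (RingEquiv.refl _) (fun c => rfl) ?_
  intro A' hA'
  obtain ⟨T, hT, hh⟩ := h2 k X.functionField _ hgood A' hA'
  refine ⟨T, hT, fun d hd hd0 hTR E _ _ _ P x => ?_⟩
  refine (hh d hd hd0 hTR E P x (fun _ => 0)).subset ?_
  intro φ hφ
  exact ⟨hφ, fun r hr => absurd hr.2 (Set.notMem_empty _)⟩

end Pool.Agent.PQX.H3
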