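import Mathlib
import Pool.Agent.Helper3_PQX.Abs

/-!
# Squad PQX: the final theorem, all parts
-/

set_option autoImplicit false

universe u

open CategoryTheory AlgebraicGeometry MvPolynomial PGH PGL

namespace Pool.Agent.PQX.H3

open FibreTowers

theorem large_mono {N₀ N₀' : ℕ → ℕ} (h : ∀ n, N₀ n ≤ N₀' n)
    {Φ : ∀ n N : ℕ, MvPolynomial (Fin n × Fin N) ℤ} {k : Type*} [Field k] {n : ℕ}
    {A : Fin n → Finset k} (hA : Large N₀' Φ A) : Large N₀ Φ A := by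
  rcases hA with ⟨rfl, hc⟩ | ⟨N, a, hN, hA, ha⟩
  · exact Or.inl ⟨rfl, fun l => (h _).trans (hc l)⟩
  · exact Or.inr ⟨N, a, (h _).trans hN, hA, ha⟩

theorem step_mono {N₀ N₀' : ℕ → ℕ} (h : ∀ n, N₀ n ≤ N₀' n)
    {Φ : ∀ n N : ℕ, MvPolynomial (Fin n × Fin N) ℤ} {k M : Type u} [Field k] [Field M]
    {κ : k →+* M} {F F' : Subfield M} (hs : Step N₀' Φ κ F F') : Step N₀ Φ κ F F' := by
  obtain ⟨n, x, A, T, hL, hh⟩ := hs.step
  exact ⟨hs.le, n, x, A, T, large_mono h hL, hh⟩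

/-- the final theorem, from the statements of the squad -/
theorem main_all (h0 : GpnStmt.{u}) (h1 : GpzStmt.{u}) (hr : RadStmt.{u}) (hq : QuoStmt.{u})
    (h2 : Fin2BStmt.{u}) (h3 : GAlgStmt.{u}) :
    ∃ (N₀ : ℕ → ℕ) (Φ : ∀ n N : ℕ, MvPolynomial (Fin n × Fin N) ℤ),
      (∀ n N, N₀ n ≤ N → Φ n N ≠ 0) ∧
      ∀ {k : Type u} [Field k] [IsAlgClosed k] [CharZero k],
      (∀ {X : Scheme.{u}} (f : X ⟶ Spec (.of k)) [IsIntegral X] [IsSeparated f]
        [LocallyOfFiniteType f] [QuasiCompact f],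
      (Relation.ReflTransGen (Step N₀ Φ (constants k f)) (constants k f).fieldRange ⊤ →
        IsPGH k f) ∧
      (∀ {Y : Scheme.{u}} (q : Y ⟶ Spec (.of k)) [IsIntegral Y] (g : X ⟶ Y) [IsDominant g],
        g ≫ q = f → IsPGH k q →
        Relation.ReflTransGen (Step N₀ Φ (constants k f)) (pullbackField g).fieldRange ⊤ →
        IsPGH k f) ∧
      (CurveQuotient (N₀ 2) (constants k f) → IsPGH k f)) ∧
      ∀ {M : Type u} [Field M] (κ : k →+* M) (F F' : Subfield M),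
        RadicalStep N₀ Φ κ F F' ∨ QuotientStep N₀ Φ κ F F' → Step N₀ Φ κ F F' := by
  obtain ⟨N₁, Φ, hΦ, hmain⟩ := main_of h0 h1 hr hq h2 h3
  obtain ⟨N₂, habs⟩ := abs_of h1 hq h2 h3
  refine ⟨fun n => max (N₁ n) N₂, Φ, fun n N h => hΦ n N ((le_max_left _ _).trans h), ?_⟩
  intro k _ _ _
  obtain ⟨hX, hM⟩ := hmain (k := k)
  have hle : ∀ n, N₁ n ≤ max (N₁ n) N₂ := fun n => le_max_left _ _
  refine ⟨?_, ?_⟩
  · intro X f _ _ _ _
    obtain ⟨ha, hb⟩ := hX f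
    refine ⟨fun h => ha (Relation.ReflTransGen.mono (fun _ _ => step_mono hle) _ _ h), ?_, ?_⟩
    · intro Y q _ g _ hgq hY h
      exact hb q g hgq hY (Relation.ReflTransGen.mono (fun _ _ => step_mono hle) _ _ h)
    · rintro ⟨n, x, A, hn, hA, hQ, hi, halg⟩
      exact habs f ⟨n, x, A, hn, fun l => (le_max_right _ _).trans (hA l), hQ, hi, halg⟩
  · intro M _ κ F F' h
    let _ : Algebra k M := κ.toAlgebra
    rcases h with h | h
    · obtain ⟨n, x, A, hL, hR, hi, halg⟩ := h.step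
      obtain ⟨T, hT, hG⟩ := hr (F : Set M) x A (indep x hi) hR
      exact ⟨h.le, n, x, A, T, hL, hT, (eqv (F : Set M) T x A).2 @hG, hi, halg⟩
    · obtain ⟨n, x, A, hL, hR, hi, halg⟩ := h.step
      obtain ⟨T, hT, hG⟩ := hq x A (indep x hi) hR
      have hG' : GermsA (F : Set M) T x A := @hG (F : Set M)
      exact ⟨h.le, n, x, A, T, hL, hT, (eqv (F : Set M) T x A).2 @hG', hi, halg⟩

end Pool.Agent.PQX.H3
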